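import Mathlib
import Pool.Agent.H.MP_a16b96_lc.A
import Pool.Agent.H.MP_4d4d44_lc.A

set_option autoImplicit false

namespace Pool.Agent.Results.MP_4d4d44_lc.No

open Set Filter Topology Function TopologicalSpace Cardinal MeasureTheory
  Pool.Agent.H.MP_a16b96_lc Pool.Agent.H.MP_4d4d44_lc

/-- universally null subset of the Cantor space -/
def UN (A : Set (ℕ → Bool)) : Prop :=
  ∀ μ : Measure (ℕ → Bool), IsFiniteMeasure μ → (∀ x, μ {x} = 0) → μ A = 0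

/-- countably perfectly null subset of the Cantor space -/
def PNσ (A : Set (ℕ → Bool)) : Prop :=
  ∀ μ : Measure (ℕ → Bool), IsFiniteMeasure μ → (∀ x, μ {x} = 0) → ∃ F : ℕ → Set (ℕ → Bool),
    (∀ k, IsClosed (F k)) ∧ A ⊆ ⋃ k, F k ∧ μ (⋃ k, F k) = 0

noncomputable def e (z : ℕ → ℕ∞) (y : ℕ → Bool) (m : ℕ) : Bool := Nat.casesOn m.unpair.2
  (y m.unpair.1) fun k => ({(k : ℕ∞)} : Set ℕ∞).boolIndicator (z m.unpair.1)

theorem e1 (z : ℕ → ℕ∞) (y : ℕ → Bool) (n k : ℕ) :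
    e z y (Nat.pair n (k + 1)) = true ↔ z n = k := by
  simp [e, ← mem_iff_boolIndicator]

theorem e2 : Continuous fun p : (ℕ → ℕ∞) × (ℕ → Bool) => e p.1 p.2 := continuous_pi fun m => by
  unfold e
  cases m.unpair.2 with
  | zero => exact (continuous_apply _).comp continuous_snd
  | succ k => exact ((continuous_boolIndicator_iff_isClopen _).2 ⟨isClosed_singleton,
      ENat.isOpen_singleton (ENat.coe_ne_top k)⟩).comp ((continuous_apply _).comp continuous_fst)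

theorem tot {α : Type} (h : ℵ₀ ≤ #α) :
    ∃ r : α → α → Prop, (∀ a b, ¬ r a b → r b a) ∧ ∀ a, #{b | r b a} < #α := by
  obtain ⟨_, _, ho⟩ := exists_ord_eq_type_lt α
  exact ⟨(· ≤ ·), fun _ _ => le_of_not_ge, fun a => mk_Iic_lt a ho h⟩

theorem result : ∃ A : Set (ℕ → Bool), UN A ∧ ¬ PNσ A := by
  classical
  let φ := PolishSpace.measurableEquivNatBoolOfNotCountable (α := ℝ) not_countable
  obtain ⟨_, ⟨ν, n1, n2, S, hS, rfl⟩, hm⟩ := wellFounded_lt.has_min {κ : Cardinal |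
    ∃ ν : Measure (ℕ → Bool), IsFiniteMeasure ν ∧ (∀ x, ν {x} = 0) ∧ ∃ S, ν S ≠ 0 ∧ #S = κ}
    ⟨_, (volume.restrict (Icc 0 1)).map φ, inferInstance, fun x => by
      rw [φ.map_apply]
      exact (subsingleton_singleton.preimage φ.injective).measure_zero _, Set.univ, by
        simp [φ.map_apply], rfl⟩
  have : NullSingletonClass ν := ⟨n2⟩
  obtain ⟨r, r1, r2⟩ := tot (α := S)
    (infinite_iff.1 (infinite_coe_iff.2 fun h => hS (h.measure_zero ν)))
  have sm : ∀ μ : Measure (ℕ → Bool), IsFiniteMeasure μ → (∀ x, μ {x} = 0) →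
      ∀ (ξ : S) (f : S → ℕ → Bool), μ (f '' {β | r β ξ}) = 0 := fun μ h1 h2 ξ f => by
    by_contra h'
    exact hm _ ⟨μ, h1, h2, _, h', rfl⟩ (mk_image_le.trans_lt (r2 ξ))
  obtain ⟨V, hV⟩ := (countable_countableBasis (ℕ → Bool)).exists_eq_range
    (((isBasis_countableBasis _).exists_subset_of_mem_open (mem_univ default) isOpen_univ).imp
      fun _ h => h.1)
  have v1 := hV ▸ isBasis_countableBasis (ℕ → Bool)
  choose c c1 c2 using fun ξ : S => code ν v1 (sm ν n1 n2 ξ (↑))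
  obtain ⟨ι, _, _, b, b1, b2, b3⟩ := scale
  let a : ι → S → ℕ → Bool := fun i ξ => e (fun k => (Nat.pair (b i k) (c ξ k) : ℕ)) ξ
  have a1 : ∀ i ξ n k, a i ξ (Nat.pair n (k + 1)) = true ↔ Nat.pair (b i n) (c ξ n) = k :=
    fun i ξ n k => (e1 _ _ _ _).trans Nat.cast_inj
  refine ⟨⋃ i, range (a i), fun μ m1 m2 => wo μ _ (fun i => fub μ ν (p := fun x y => ∀ n, ∃ m k,
    x (Nat.pair (Nat.pair n m) (k + 1)) = true ∧ k.unpair.2 = 1 ∧ y ∈ V m) ?_ ?_ ?_ hS)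
    (p := fun x y => ∃ N, ∀ n k l, N ≤ n → x (Nat.pair n (k + 1)) = true →
      y (Nat.pair n (l + 1)) = true → l.unpair.1 < k.unpair.1) (by fun_prop) ?_, fun h => ?_⟩
  · have : ∀ m, MeasurableSet (V m) := fun m => (v1.isOpen (mem_range_self m)).measurableSet
    fun_prop (disch := exact this _)
  · rintro _ ⟨ξ, rfl⟩
    refine measure_mono_null ?_ (c2 ξ)
    intro y hy n
    obtain ⟨m, k, h1, h2, h3⟩ := hy.1 n
    exact ⟨m, by simpa [← (a1 _ _ _ _).1 h1] using h2, h3⟩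
  · intro y hy
    refine measure_mono_null ?_ (sm μ m1 m2 ⟨y, hy⟩ (a i))
    rintro _ ⟨h1, ξ, rfl⟩
    refine ⟨ξ, r1 _ _ fun h => h1 fun n => ?_, rfl⟩
    obtain ⟨m, h2, h3⟩ := c1 ξ ⟨_, h, rfl⟩ n
    exact ⟨m, _, (a1 _ _ _ _).2 rfl, by simpa using h2, h3⟩
  · rintro i j h _ ⟨ξ, rfl⟩ _ ⟨η, rfl⟩
    obtain ⟨N, hN⟩ := eventually_atTop.1 (b2 i j h)
    refine ⟨⟨N, fun n k l h1 h2 h3 => ?_⟩, fun ⟨M, hM⟩ => (hN _ (le_max_left N M)).not_gt ?_⟩
    · simpa [← (a1 _ _ _ _).1 h2, ← (a1 _ _ _ _).1 h3] using hN n h1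
    · simpa using hM _ _ _ (le_max_right N M) ((a1 _ _ _ _).2 rfl) ((a1 _ _ _ _).2 rfl)
  have e3 : ∀ z, Measurable (e z) := fun z => (e2.comp (Continuous.prodMk_right z)).measurable
  obtain ⟨F, f1, f2, f3⟩ := h (Measure.sum fun l : List ℕ∞ =>
    ν.map (e fun n => l.getD n ⊤)).toFinite inferInstance fun x => by
      rw [toFinite_apply_eq_zero_iff, Measure.sum_apply_eq_zero]
      intro l
      rw [Measure.map_apply (e3 _) (measurableSet_singleton x)]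
      refine (subsingleton_singleton.preimage fun y w h => funext fun n => ?_).measure_zero _
      have := congrFun h (Nat.pair n 0)
      unfold e at this
      rwa [Nat.unpair_pair] at this
  rw [toFinite_apply_eq_zero_iff, Measure.sum_apply_eq_zero] at f3
  obtain ⟨y, hy⟩ := not_subset.1 fun h : S ⊆ ⋃ l : List ℕ∞, (e fun n => l.getD n ⊤) ⁻¹' ⋃ k, F k =>
    hS (measure_mono_null h (measure_iUnion_null fun l => (Measure.map_apply (e3 _)
      (MeasurableSet.iUnion fun k => (f1 k).measurableSet)).symm.trans (f3 l)))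
  choose g hg using fun k => bd ((f1 k).preimage (e2.comp (Continuous.prodMk_left y)))
    fun l hl => hy.2 (mem_iUnion.2 ⟨l, mem_iUnion.2 ⟨k, hl⟩⟩)
  obtain ⟨i, hi⟩ := b3 g
  obtain ⟨k, hk⟩ := mem_iUnion.1 (f2 (mem_iUnion.2 ⟨i, ⟨y, hy.1⟩, rfl⟩))
  obtain ⟨n, hn⟩ := hi k
  obtain ⟨m, m1, m2⟩ := hg k (fun k => (Nat.pair (b i k) (c ⟨y, hy.1⟩ k) : ℕ)) hk n
  exact hn.not_gt (((b1 i m1).trans (Nat.left_le_pair _ _)).trans_lt (Nat.cast_lt.1 m2))

end Pool.Agent.Results.MP_4d4d44_lc.No
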